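import Pool.Agent.Run7.h941.CB7

set_option autoImplicit false

open Run7.H941.N in
/-- The lex-plus-powers conjecture: all graded Betti numbers in three variables (every field, every
degree sequence), and, in any number `n` of variables, the graded Betti numbers `β_{0j}` and
`β_{n-1,j}` for every degree sequence of length at most three and for the sequences with
`a_i ≥ 2` and `a_i ≥ (a_1 - 1) + … + (a_{i-1} - 1)` for `i ≥ 4` (`Adm a`). `HasReg a I`: the ideal
`I` is homogeneous and contains a regular sequence of forms of degrees `1 ≤ a_1 ≤ … ≤ a_r`.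
`IsLPP hr a I P`: `P` is the ideal `LPP_a(I)`. `betti I i j`: the graded Betti number `β_ij(I)`, as
the dimension of the Koszul homology.

Part 1: there is at most one such `P`. Part 2: three variables. Part 3: any number of variables;
`LPP_a(I)` is an ideal `P`, and its first and last graded Betti numbers are at least those
of `I`. -/
theorem Pool.Agent.Results.MP_367a59_ag.ThreeVariablesAndEnds.result
    (k : Type*) [Field k] :
  (∀ (n r : ℕ) (hr : r ≤ n) (a : Fin r → ℕ) (I P P' : Ideal (MvPolynomial (Fin n) k)),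
    IsLPP hr a I P → IsLPP hr a I P' → P = P') ∧
  (∀ (r : ℕ) (hr : r ≤ 3) (a : Fin r → ℕ) (I : Ideal (MvPolynomial (Fin 3) k)), HasReg a I →
    ∃ P, IsLPP hr a I P ∧ ∀ i j, betti I i j ≤ betti P i j) ∧
  (∀ (n r : ℕ) (hr : r ≤ n) (a : Fin r → ℕ) (I : Ideal (MvPolynomial (Fin n) k)), HasReg a I →
    Adm a → ∃ P, IsLPP hr a I P ∧ ∀ j, betti I 0 j ≤ betti P 0 j ∧
      betti I (n - 1) j ≤ betti P (n - 1) j) :=
  ⟨fun _ _ _ _ _ _ _ h h' => h.unique h', fun _ hr a I h => lpp_three_vars hr a I h,
    fun _ _ hr a I h hA => lpp_ends_betti hr a I h hA⟩
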